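import Pool.Agent.W763.PB.Stm

/-! Project PB: the mass of the shifted profile. -/

set_option autoImplicit false

namespace Pool.Agent.W490.PB

open Pool.Agent.W763.PB

theorem z3 : S_R0 → S_R2 → S_Z0 → S_Z2 → S_Z3 := by
  intro hR0 hR2 hZ0 hZ2 k b m _ _ hk hb n hn
  have hm : 1 ≤ m := Nat.one_le_iff_ne_zero.2 (NeZero.ne m)
  have hm0 : (0 : ℝ) < m := by exact_mod_cast hm
  obtain ⟨hq0, hq1, hqn, -, -⟩ := (hR0 k hk) m hm
  have hb64 : (64 : ℝ) ≤ b := (hR2 k b hk hb).1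
  have hb2 : 2 ≤ b := by
    have : (2 : ℝ) ≤ b := by linarith
    exact_mod_cast this
  have hbm : 2 * m ≤ b * m := Nat.mul_le_mul_right m hb2
  have hk0 : (0 : ℝ) < k := by linarith
  have hk2 : k ^ (-2 : ℝ) < 1 := Real.rpow_lt_one_of_one_lt_of_neg (by linarith) (by norm_num)
  have hden : 0 < 1 - k ^ (-2 : ℝ) := by linarith
  have hqs : (qq k m) ^ 2 < 1 := pow_lt_one₀ hq0.le hq1 two_ne_zero
  have hc2 : cc k m ^ 2 = (1 - (qq k m) ^ 2) / (1 - k ^ (-2 : ℝ)) := by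
    unfold cc
    exact Real.sq_sqrt (div_nonneg (by linarith) hden.le)
  have h1 : ∀ t : ZMod (b * m), (ee b m t) ^ 2 * (Om k b m (t + n)) ^ 2 =
      (fun j : ℕ => if j + n < 2 * m then cc k m ^ 2 * ((qq k m) ^ 2) ^ (j + n) else 0) t.val := by
    intro t
    simp only
    unfold ee
    by_cases ht : t.val < 2 * m
    · have hv := (hZ2 k b m hk hb n hn).2 t ht
      unfold Om
      rw [if_pos ht, hv]
      by_cases h : t.val + n < 2 * m
      · rw [if_pos h, if_pos h, one_pow, one_mul, mul_pow, ← pow_mul, ← pow_mul, mul_comm 2]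
      · rw [if_neg h, if_neg h]
        ring
    · rw [if_neg ht, if_neg (by omega)]
      ring
  rw [Finset.sum_congr rfl (fun t _ => h1 t),
    hZ0 (b * m) (fun j : ℕ => if j + n < 2 * m then cc k m ^ 2 * ((qq k m) ^ 2) ^ (j + n) else 0)]
  have h2 : ∑ j ∈ Finset.range (b * m),
      (if j + n < 2 * m then cc k m ^ 2 * ((qq k m) ^ 2) ^ (j + n) else 0) =
      ∑ j ∈ Finset.range (2 * m - n), cc k m ^ 2 * ((qq k m) ^ 2) ^ (j + n) := by
    rw [← Finset.sum_filter]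
    apply Finset.sum_congr _ (fun _ _ => rfl)
    ext j
    rw [Finset.mem_filter, Finset.mem_range, Finset.mem_range]
    omega
  rw [h2]
  have h3 : ∑ j ∈ Finset.range (2 * m - n), cc k m ^ 2 * ((qq k m) ^ 2) ^ (j + n) =
      cc k m ^ 2 * ((qq k m) ^ 2) ^ n * ∑ j ∈ Finset.range (2 * m - n), ((qq k m) ^ 2) ^ j := by
    rw [Finset.mul_sum]
    refine Finset.sum_congr rfl fun j _ => ?_
    rw [pow_add]
    ring
  rw [h3, geom_sum_eq (ne_of_lt hqs), hc2]
  have h4 : ((qq k m) ^ 2) ^ n = k ^ (-((n : ℝ) / m)) := by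
    rw [← pow_mul, hqn]
    congr 1
    push_cast
    field_simp
  have h5 : ((qq k m) ^ 2) ^ (2 * m - n) = k ^ (-(2 - (n : ℝ) / m)) := by
    rw [← pow_mul, hqn]
    congr 1
    rw [Nat.cast_mul, Nat.cast_sub (by omega)]
    push_cast
    field_simp
  rw [h4, h5]
  unfold pp
  have h6 : (qq k m) ^ 2 - 1 ≠ 0 := by linarith
  have h7 : 1 - k ^ (-2 : ℝ) ≠ 0 := hden.ne'
  field_simp
  ring

end Pool.Agent.W490.PB
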